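import Pool.Agent.helper36.HK.Spec

/-!
# Project fi (MP_ad8ced_nt), block HK, row CPX: the complex characters
-/

set_option autoImplicit false

open Finset
open Pool.Agent.FI

noncomputable section

namespace Pool.Agent.HK

private theorem CPX_log (n : ℕ) : ∃ x₁ : ℝ, ∀ x : ℝ, x₁ ≤ x → Real.log x ^ n ≤ √x := by
  have h1 := isLittleO_log_rpow_rpow_atTop (n : ℝ) (by norm_num : (0 : ℝ) < 1 / 2)
  have h2 := h1.def (by norm_num : (0 : ℝ) < 1)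
  obtain ⟨a, ha⟩ := Filter.eventually_atTop.1 h2
  refine ⟨max a 1, fun x hx => ?_⟩
  have h3 := ha x ((le_max_left _ _).trans hx)
  have hx1 : 1 ≤ x := (le_max_right _ _).trans hx
  have hx0 : 0 ≤ x := by linarith
  rw [Real.rpow_natCast, one_mul, Real.norm_eq_abs, Real.norm_eq_abs,
    abs_of_nonneg (Real.rpow_nonneg hx0 _), ← Real.sqrt_eq_rpow] at h3
  exact (le_abs_self _).trans h3

private theorem CPX_N8 (z : ℤ × ℤ) (hz : z.1 % 2 = 1) : N8 z ≠ 0 := by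
  obtain ⟨k, hk⟩ : ∃ k, z.1 = 2 * k + 1 := ⟨z.1 / 2, by omega⟩
  unfold N8
  rw [hk]
  intro h
  have h1 : 2 * (2 * k ^ 2 + 2 * k - 4 * z.2 ^ 2) + 1 = 0 := by linarith
  omega

private theorem CPX_sq (ψ : ℤ × ℤ → ℂ) (j i : ℕ) (κ : ℝ) (z : ℤ × ℤ) (hz : z.1 % 2 = 1) :
    HC ψ j i κ z ^ 2 = HC (fun z => ψ z ^ 2) 0 0 (2 * κ) z := by
  have hs : (((N8 z).sign : ℤ) : ℂ) ^ 2 = 1 := by
    rcases lt_or_gt_of_ne (CPX_N8 z hz) with h | h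
    · rw [Int.sign_eq_neg_one_of_neg h]
      norm_num
    · rw [Int.sign_eq_one_of_pos h]
      norm_num
  unfold HC
  rw [mul_pow, mul_pow, mul_pow]
  have e1 : ((-1 : ℂ) ^ (j * z.2.natAbs)) ^ 2 = 1 := by
    rw [← pow_mul, Nat.mul_comm, pow_mul, neg_one_sq, one_pow]
  have e2 : ((((N8 z).sign : ℤ) : ℂ) ^ i) ^ 2 = 1 := by
    rw [← pow_mul, Nat.mul_comm, pow_mul, hs, one_pow]
  have e3 : Complex.exp ((κ : ℂ) * (yy z : ℂ) * Complex.I) ^ 2 =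
      Complex.exp (((2 * κ : ℝ) : ℂ) * (yy z : ℂ) * Complex.I) := by
    rw [← Complex.exp_nat_mul]
    congr 1
    push_cast
    ring
  rw [e1, e2, e3, Nat.zero_mul, pow_zero, pow_zero]

private theorem CPX_rc {d : ℕ} {ψ : ℤ × ℤ → ℂ} (h : IsRC d ψ) : IsRC d (fun z => ψ z ^ 2) := by
  obtain ⟨h1, h2, h3, h4, h5⟩ := h
  refine ⟨?_, ?_, ?_, ?_, ?_⟩
  · intro z w
    change ψ (mul8 z w) ^ 2 = ψ z ^ 2 * ψ w ^ 2
    rw [h1, mul_pow]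
  · intro z w hz hw
    change ψ z ^ 2 = ψ w ^ 2
    rw [h2 z w hz hw]
  · intro z hz
    change ψ z ^ 2 = 0
    rw [h3 z hz]
    norm_num
  · intro z hz
    change ‖ψ z ^ 2‖ = 1
    rw [norm_pow, h4 z hz, one_pow]
  · intro t ht
    change ψ (t, 0) ^ 2 = 1
    rw [h5 t ht, one_pow]

private theorem CPX_ui {ψ : ℤ × ℤ → ℂ} {j : ℕ} {κ : ℝ} (h : UInv ψ j κ) :
    UInv (fun z => ψ z ^ 2) 0 (2 * κ) := by
  unfold UInv at h ⊢
  have h1 := congrArg (fun w : ℂ => w ^ 2) h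
  simp only [one_pow] at h1
  rw [mul_pow, mul_pow] at h1
  have e1 : ((-1 : ℂ) ^ j) ^ 2 = 1 := by
    rw [← pow_mul, Nat.mul_comm, pow_mul, neg_one_sq, one_pow]
  rw [e1, ← Complex.exp_nat_mul] at h1
  rw [pow_zero]
  rw [← h1]
  congr 2
  push_cast
  ring

private theorem CPX_bd {C1 C2 : ℝ} (hC1 : 0 < C1) (hC2 : 0 < C2)
    (h1 : ∀ d : ℕ, Odd d → ∀ ψ : ℤ × ℤ → ℂ, IsRC d ψ → ∀ j i : ℕ, j ≤ 1 →
      ∀ κ : ℝ, ((∃ z, Nat.Coprime (nn z) d ∧ ψ z ≠ 1) ∨ j = 1) → ∀ y : ℕ,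
      ‖∑ z ∈ FF y, HC ψ j i κ z‖ ≤ C1 * (d * (1 + |κ|)) ^ 3 * √(y : ℝ))
    (h2 : ∀ d : ℕ, Odd d → ∀ ψ : ℤ × ℤ → ℂ, IsRC d ψ → ∀ i : ℕ,
      ∀ κ : ℝ, (∀ z, Nat.Coprime (nn z) d → ψ z = 1) → κ ≠ 0 → UInv ψ 0 κ → ∀ y : ℕ,
      ‖∑ z ∈ FF y, HC ψ 0 i κ z‖ ≤ C2 * (d * (1 + |κ|)) ^ 12 * √(y : ℝ))
    (d : ℕ) (hd : Odd d) (ψ : ℤ × ℤ → ℂ) (hψ : IsRC d ψ) (j i : ℕ) (hj : j ≤ 1) (κ : ℝ) (hU : UInv ψ j κ)
    (hn : (∀ z, Nat.Coprime (nn z) d → ψ z = 1) → κ ≠ 0) (y : ℕ) :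
    ‖∑ z ∈ FF y, HC ψ j i κ z‖ ≤ (C1 + C2) * (d * (1 + |κ|)) ^ 12 * √(y : ℝ) := by
  have hd1 : (1 : ℝ) ≤ d := by
    have : 1 ≤ d := hd.pos
    exact_mod_cast this
  have hb : 1 ≤ (d : ℝ) * (1 + |κ|) := by
    have := abs_nonneg κ
    nlinarith
  have hy : 0 ≤ √(y : ℝ) := Real.sqrt_nonneg _
  have hp : 0 ≤ ((d : ℝ) * (1 + |κ|)) ^ 12 := by positivity
  by_cases hc : (∃ z, Nat.Coprime (nn z) d ∧ ψ z ≠ 1) ∨ j = 1
  · refine (h1 d hd ψ hψ j i hj κ hc y).trans ?_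
    refine mul_le_mul_of_nonneg_right ?_ hy
    have h3 : ((d : ℝ) * (1 + |κ|)) ^ 3 ≤ ((d : ℝ) * (1 + |κ|)) ^ 12 := pow_le_pow_right₀ hb (by norm_num)
    nlinarith
  · push Not at hc
    obtain ⟨hc1, hc2⟩ := hc
    have hj0 : j = 0 := by omega
    subst hj0
    refine (h2 d hd ψ hψ i κ hc1 (hn hc1) hU y).trans ?_
    refine mul_le_mul_of_nonneg_right ?_ hy
    nlinarith

private theorem CPX_norm {d : ℕ} {Ψ : ℤ × ℤ → ℂ} (h : UC d Ψ) (z : ℤ × ℤ) (hz : z.1 % 2 = 1) : ‖Ψ z‖ ≤ 1 := by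
  by_cases hc : Nat.Coprime (nn z) d
  · exact (h.2.2.2.1 z hz hc).le
  · rw [h.2.2.1 z hz hc, norm_zero]
    exact zero_le_one

private theorem CPX_odd {y : ℕ} {z : ℤ × ℤ} (hz : z ∈ FF y) : z.1 % 2 = 1 := by
  classical
  unfold FF at hz
  exact (Finset.mem_filter.1 hz).2.1.1

private theorem CPX_cv {g h : ℕ → ℂ} (hg : CM g) (hh : CM h) {p : ℕ} (hp : p.Prime) : cv g h p = g p + h p := by
  unfold cv
  rw [Nat.sum_divisorsAntidiagonal (fun a b => g a * h b), hp.divisors, Finset.sum_pair hp.one_lt.ne,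
    Nat.div_one, Nat.div_self hp.pos, hg.2.1, hh.2.1]
  ring

/-- removing the proper prime powers -/
private theorem CPX_pp {C4 : ℝ} (hC4 : ∀ x : ℝ, Chebyshev.psi x - Chebyshev.theta x ≤ C4 * √x) {g h : ℕ → ℂ}
    (hg : CM g) (hh : CM h) (u : ℕ) :
    ‖∑ n ∈ Ioc 0 u with ¬ n.Prime, LG g h n‖ ≤ 2 * (C4 * √(u : ℝ)) := by
  refine (norm_sum_le _ _).trans ?_
  have h1 : ∀ n ∈ (Ioc 0 u).filter (fun n => ¬ n.Prime), ‖LG g h n‖ ≤ 2 * ArithmeticFunction.vonMangoldt n := by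
    intro n _
    unfold LG
    have h2 : ‖((ArithmeticFunction.vonMangoldt n : ℝ) : ℂ)‖ = ArithmeticFunction.vonMangoldt n := by
      rw [Complex.norm_real, Real.norm_eq_abs, abs_of_nonneg ArithmeticFunction.vonMangoldt_nonneg]
    have h3 : ‖g n + h n‖ ≤ 2 := by
      refine (norm_add_le _ _).trans ?_
      have := hg.2.2.2 n
      have := hh.2.2.2 n
      linarith
    rw [norm_mul, h2]
    have h4 : 0 ≤ ArithmeticFunction.vonMangoldt n := ArithmeticFunction.vonMangoldt_nonneg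
    nlinarith
  refine (Finset.sum_le_sum h1).trans ?_
  rw [← Finset.mul_sum]
  have h5 := Chebyshev.psi_sub_theta_eq_sum_not_prime (u : ℝ)
  rw [Nat.floor_natCast] at h5
  rw [← h5]
  have := hC4 (u : ℝ)
  linarith

theorem CPX (hABS : ABS_stmt) (hTRI : TRI_stmt) (hPNP : PNP_stmt) (hPPR : PPR_stmt) (hUCH : UCH_stmt)
    (hSRF : SRF_stmt) : CPX_stmt := by
  intro A B
  obtain ⟨C1, hC1, hP1⟩ := hPNP
  obtain ⟨C2, hC2, hP2⟩ := hPPR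
  obtain ⟨C3, x₃, hC3, hA⟩ := hABS 25 A (24 * B + 1)
  obtain ⟨C4, hC4⟩ := Chebyshev.psi_sub_theta_le_mul_sqrt
  obtain ⟨x₁, hx₁⟩ := CPX_log A
  obtain ⟨s1, s2, s3⟩ := hSRF
  obtain ⟨Q, hQ⟩ : ∃ Q : ℝ, Q = 1 + (C1 + C2) * 3 ^ 12 := ⟨_, rfl⟩
  have hQ1 : 1 ≤ Q := by
    rw [hQ]
    have : 0 ≤ (C1 + C2) * 3 ^ 12 := by positivity
    linarith
  refine ⟨C3 + 2 * |C4|, max (max x₃ x₁) (Real.exp Q), by positivity, ?_⟩
  intro x hx d hd hdB ψ hψ j i hj hi κ hκ hU hn u hu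
  have hxx3 : x₃ ≤ x := (le_max_left _ _).trans ((le_max_left _ _).trans hx)
  have hxx1 : x₁ ≤ x := (le_max_right _ _).trans ((le_max_left _ _).trans hx)
  have hxQ : Real.exp Q ≤ x := (le_max_right _ _).trans hx
  have hx0 : 0 < x := (Real.exp_pos Q).trans_le hxQ
  have hL : Q ≤ Real.log x := (Real.le_log_iff_exp_le hx0).2 hxQ
  have hL1 : 1 ≤ Real.log x := hQ1.trans hL
  have hUC := hUCH d ψ j i κ hψ hU
  obtain ⟨k₁, k₂, g₁, g₂, h₁, h₂, ck1, ck2, cg1, cg2, ch1, ch2, htri, hcv⟩ := hTRI d (HC ψ j i κ) hUC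
  obtain ⟨M, hM⟩ : ∃ M : ℝ, M = 1 + (C1 + C2) * (d * (1 + 2 * |κ|)) ^ 12 := ⟨_, rfl⟩
  have hκ0 : 0 ≤ |κ| := abs_nonneg κ
  have hd0 : (0 : ℝ) ≤ d := Nat.cast_nonneg d
  have hM1 : 1 ≤ M := by
    rw [hM]
    have : 0 ≤ (C1 + C2) * (d * (1 + 2 * |κ|)) ^ 12 := by positivity
    linarith
  have hML : M ≤ Real.log x ^ (24 * B + 1) := by
    have hLB : 1 ≤ Real.log x ^ B := one_le_pow₀ hL1
    have h1 : (d : ℝ) * (1 + 2 * |κ|) ≤ 3 * (Real.log x ^ B) ^ 2 := by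
      have h2 : 1 + 2 * |κ| ≤ 3 * Real.log x ^ B := by linarith
      calc (d : ℝ) * (1 + 2 * |κ|) ≤ Real.log x ^ B * (3 * Real.log x ^ B) :=
            mul_le_mul hdB h2 (by linarith) (by linarith)
        _ = 3 * (Real.log x ^ B) ^ 2 := by ring
    have h3 : ((d : ℝ) * (1 + 2 * |κ|)) ^ 12 ≤ (3 * (Real.log x ^ B) ^ 2) ^ 12 :=
      pow_le_pow_left₀ (by positivity) h1 12
    have h4 : (3 * (Real.log x ^ B) ^ 2) ^ 12 = 3 ^ 12 * Real.log x ^ (24 * B) := by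
      rw [mul_pow, ← pow_mul, ← pow_mul]
      congr 2
      ring
    rw [h4] at h3
    have h5 : 1 ≤ Real.log x ^ (24 * B) := one_le_pow₀ hL1
    rw [hM, pow_succ]
    calc 1 + (C1 + C2) * ((d : ℝ) * (1 + 2 * |κ|)) ^ 12
        ≤ Real.log x ^ (24 * B) + (C1 + C2) * (3 ^ 12 * Real.log x ^ (24 * B)) :=
          add_le_add h5 (mul_le_mul_of_nonneg_left h3 (by linarith))
      _ = Real.log x ^ (24 * B) * Q := by rw [hQ]; ring
      _ ≤ Real.log x ^ (24 * B) * Real.log x := mul_le_mul_of_nonneg_left hL (by linarith)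
  have hsqn : ∀ y : ℕ, 0 ≤ √(y : ℝ) := fun y => Real.sqrt_nonneg _
  -- the bound for the character
  have hb1 : ∀ y : ℕ, ‖∑ z ∈ FF y, HC ψ j i κ z‖ ≤ M * √(y : ℝ) := by
    intro y
    refine (CPX_bd hC1 hC2 hP1 hP2 d hd ψ hψ j i hj κ hU ?_ y).trans ?_
    · intro h1 h2
      exact hn ⟨fun z hz => by rw [h1 z hz, one_pow], h2⟩
    · refine mul_le_mul_of_nonneg_right ?_ (hsqn y)
      rw [hM]
      have h1 : ((d : ℝ) * (1 + |κ|)) ^ 12 ≤ ((d : ℝ) * (1 + 2 * |κ|)) ^ 12 := by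
        refine pow_le_pow_left₀ (by positivity) ?_ 12
        exact mul_le_mul_of_nonneg_left (by linarith) hd0
      have h2 : (C1 + C2) * ((d : ℝ) * (1 + |κ|)) ^ 12 ≤ (C1 + C2) * ((d : ℝ) * (1 + 2 * |κ|)) ^ 12 :=
        mul_le_mul_of_nonneg_left h1 (by linarith)
      linarith
  -- the bound for the square
  have hb2 : ∀ y : ℕ, ‖∑ z ∈ FF y, HC ψ j i κ z ^ 2‖ ≤ M * √(y : ℝ) := by
    intro y
    have h1 : ∑ z ∈ FF y, HC ψ j i κ z ^ 2 = ∑ z ∈ FF y, HC (fun z => ψ z ^ 2) 0 0 (2 * κ) z :=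
      Finset.sum_congr rfl fun z hz => CPX_sq ψ j i κ z (CPX_odd hz)
    rw [h1]
    refine (CPX_bd hC1 hC2 hP1 hP2 d hd (fun z => ψ z ^ 2) (CPX_rc hψ) 0 0 (by norm_num) (2 * κ) (CPX_ui hU)
      ?_ y).trans ?_
    · intro h2 h3
      refine hn ⟨h2, ?_⟩
      linarith
    · refine mul_le_mul_of_nonneg_right ?_ (hsqn y)
      rw [hM, abs_mul, abs_two]
      linarith
  have hdat : Dat 25 M k₁ k₂ g₁ g₂ h₁ h₂ := by
    refine ⟨ck1, ck2, cg1, cg2, ch1, ch2, htri, hM1, ?_, ⟨?_, ?_⟩, ?_, ?_⟩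
    · intro y
      have h1 : ∑ n ∈ Ioc 0 y, ‖cv k₁ k₂ n‖ = ∑ n ∈ Ioc 0 y, ‖rf (I1 d) n‖ := by
        refine Finset.sum_congr rfl fun n hn => ?_
        rw [(hcv n (Finset.mem_Ioc.1 hn).1).1]
      rw [h1]
      refine s2 (I1 d) ?_ y
      intro z _
      unfold I1
      split_ifs
      · rw [norm_one]
      · rw [norm_zero]
        exact zero_le_one
    · intro y
      have h1 : ∑ n ∈ Ioc 0 y, ‖cv g₁ g₂ n‖ = ∑ n ∈ Ioc 0 y, ‖rf (HC ψ j i κ) n‖ := by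
        refine Finset.sum_congr rfl fun n hn => ?_
        rw [(hcv n (Finset.mem_Ioc.1 hn).1).2.1]
      rw [h1]
      exact s2 (HC ψ j i κ) (CPX_norm hUC) y
    · intro y
      have h1 : ∑ n ∈ Ioc 0 y, cv g₁ g₂ n = ∑ n ∈ Ioc 0 y, rf (HC ψ j i κ) n := by
        refine Finset.sum_congr rfl fun n hn => ?_
        rw [(hcv n (Finset.mem_Ioc.1 hn).1).2.1]
      rw [h1, s1]
      exact hb1 y
    · intro y
      have h1 : ∑ n ∈ Ioc 0 y, ‖cv h₁ h₂ n‖ = ∑ n ∈ Ioc 0 y, ‖rf (fun z => HC ψ j i κ z ^ 2) n‖ := by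
        refine Finset.sum_congr rfl fun n hn => ?_
        rw [(hcv n (Finset.mem_Ioc.1 hn).1).2.2]
      rw [h1]
      refine s2 (fun z => HC ψ j i κ z ^ 2) ?_ y
      intro z hz
      rw [norm_pow]
      exact pow_le_one₀ (norm_nonneg _) (CPX_norm hUC z hz)
    · intro y
      have h1 : ∑ n ∈ Ioc 0 y, cv h₁ h₂ n = ∑ n ∈ Ioc 0 y, rf (fun z => HC ψ j i κ z ^ 2) n := by
        refine Finset.sum_congr rfl fun n hn => ?_
        rw [(hcv n (Finset.mem_Ioc.1 hn).1).2.2]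
      rw [h1, s1]
      exact hb2 y
  have hAb := hA x hxx3 M k₁ k₂ g₁ g₂ h₁ h₂ hdat hML u hu
  -- the sum over the primes
  have hPS : PS u (HC ψ j i κ) = ∑ n ∈ Ioc 0 u with n.Prime, LG g₁ g₂ n := by
    rw [s3]
    refine Finset.sum_congr rfl fun p hp => ?_
    rw [Finset.mem_filter, Finset.mem_Ioc] at hp
    rw [(hcv p hp.1.1).2.1, CPX_cv cg1 cg2 hp.2]
    unfold LG
    rw [ArithmeticFunction.vonMangoldt_apply_prime hp.2]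
  have hsplit := Finset.sum_filter_add_sum_filter_not (Ioc 0 u) (fun n => n.Prime) (LG g₁ g₂)
  have hPS2 : PS u (HC ψ j i κ) = ∑ n ∈ Ioc 0 u, LG g₁ g₂ n - ∑ n ∈ Ioc 0 u with ¬ n.Prime, LG g₁ g₂ n := by
    rw [hPS, ← hsplit, add_sub_cancel_right]
  have hpp := CPX_pp hC4 cg1 cg2 u
  have hL0 : 0 < Real.log x ^ A := pow_pos (by linarith) A
  have hsx : √(u : ℝ) ≤ x / Real.log x ^ A := by
    rw [le_div_iff₀ hL0]
    have h1 : √(u : ℝ) ≤ √x := Real.sqrt_le_sqrt hu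
    have h2 := hx₁ x hxx1
    calc √(u : ℝ) * Real.log x ^ A ≤ √x * √x := mul_le_mul h1 h2 hL0.le (Real.sqrt_nonneg _)
      _ = x := Real.mul_self_sqrt hx0.le
  rw [hPS2]
  refine (norm_sub_le _ _).trans ?_
  have hfin : 2 * (C4 * √(u : ℝ)) ≤ 2 * |C4| * (x / Real.log x ^ A) := by
    have h1 : C4 * √(u : ℝ) ≤ |C4| * √(u : ℝ) := mul_le_mul_of_nonneg_right (le_abs_self C4) (Real.sqrt_nonneg _)
    have h2 : |C4| * √(u : ℝ) ≤ |C4| * (x / Real.log x ^ A) := mul_le_mul_of_nonneg_left hsx (abs_nonneg _)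
    linarith
  have e1 : (C3 + 2 * |C4|) * x / Real.log x ^ A = C3 * x / Real.log x ^ A + 2 * |C4| * (x / Real.log x ^ A) := by
    ring
  rw [e1]
  linarith

end Pool.Agent.HK
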